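import Pool.Agent.Q84.NX.CrossRough

/-!
# Szpiro's small points conjecture for superelliptic curves: sets of bad places with one large prime, or with many

We consider the curves `y ^ n = d (x - z_1) ^ (e_1) … (x - z_m) ^ (e_m)` of any degree `n` over ALL number fields `K` whose branch points are
projectively equivalent to rational points, and the sets `S` of the places which divide `l N`, where `l` is a prime number, or `r N`, where `r` has
only large prime factors.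

1. For all real numbers `M, L ≥ 1` and for all but `C (M L) ^ (2/3)` of the primes `l ≤ L`: for ALL `n ≥ 2` and `N ≥ 1` with `rad (n N) ≤ M` and `l ∤ n`
   the places which divide `l N` are not the bad places of a semistable curve of the family of degree `n` over any number field (up to places which
   divide `n`). The constant `C` is absolute.
2. Let `0 < ε ≤ 1`. The same is true for all but `C(ε) L ^ (1 - ε / 10)` of the primes `l ≤ L` and ALL `n ≥ 2` and `N ≥ 1` with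
   `rad (n N) ≤ l ^ (1 - ε)` and `l ∤ n`.
3. For all real `M, z, R ≥ 1` and for all but `C M ^ 2 R z ^ (-1/3)` of the integers `r`, `1 < r ≤ R`, without prime factors `≤ z`: for ALL `n ≥ 2` and
   `N ≥ 1` with `rad (n N) ≤ M` and `n` prime to `r` the places which divide `r N` are not the bad places of such a curve. The constant `C` is absolute.

Method: if a place above `l` is a place of bad reduction, then `l` divides an abc-triple which comes from a cross ratio of the branch points and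
whose radical divides `2 n N l`. There are few triples with a small radical (starting library), and few integers `l` divide an abc-triple with a
radical at most `l ^ (2 - ε)` (starting library).
-/

set_option autoImplicit false

namespace Pool.Agent.Results.MP_fe3691_nt.AddingOnePrime

open NumberField IsDedekindDomain
open Pool.Agent.Q290.AB (Moeb GoodAt)

/-- the product of the prime factors -/
def rad (n : ℕ) : ℕ := ∏ q ∈ n.primeFactors, q

/-- There is a curve `y ^ n = d ∏ (x - z i) ^ (e i)` over some number field `K`, where `0 < e i < n`, `n` divides the sum of the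
`e i`, `m ≥ 3`, `d ≠ 0`, such that a fractional linear transformation over `K` maps the branch points `z i` to different rational numbers, and
for every place `v` of `K` which does not divide `n` the branch points have bad reduction at `v` if and only if `v` divides `N`. -/
def Occurs (n N : ℕ) : Prop :=
  ∃ (K : Type) (_ : Field K) (_ : NumberField K) (m : ℕ) (e : Fin m → ℕ) (d : K) (z : Fin m → K),
    3 ≤ m ∧ (∀ i, 0 < e i ∧ e i < n) ∧ n ∣ ∑ i, e i ∧ d ≠ 0 ∧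
    (∃ b : Fin m → ℚ, Function.Injective b ∧ Moeb z b) ∧
    ∀ v : HeightOneSpectrum (𝓞 K), ((n : ℕ) : 𝓞 K) ∉ v.asIdeal → (¬ GoodAt v z ↔ ((N : ℕ) : 𝓞 K) ∈ v.asIdeal)

/-- `r N` occurs for some `n` prime to `r` and some `N` with `rad (n N) ≤ M` -/
def IsBad (M : ℝ) (r : ℕ) : Prop :=
  ∃ n N : ℕ, 2 ≤ n ∧ 1 ≤ N ∧ Nat.Coprime r n ∧ ((rad (n * N) : ℕ) : ℝ) ≤ M ∧ Occurs n (r * N)

theorem hitR_of_bad {M : ℝ} {r : ℕ} (hr : 1 < r) (h : IsBad M r) : Pool.Agent.Q84.NX.HitR M r := by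
  obtain ⟨n, N, hn, hN, hrn, hM, K, i1, i2, m, e, d, z, h3, h4, h5, h6, h7, h8⟩ := h
  obtain ⟨l, hl, hlr⟩ := Nat.exists_prime_and_dvd hr.ne'
  have hln : ¬ l ∣ n := fun h => (Nat.Prime.one_lt hl).ne' (Nat.dvd_one.1 (hrn ▸ Nat.dvd_gcd hlr h))
  obtain ⟨v, hv⟩ := Pool.Agent.Q290.AB.exists_place K hl
  have hnl : ((n : ℕ) : 𝓞 K) ∉ v.asIdeal := by
    rw [hv]
    exact hln
  have hbad : ¬ GoodAt v z := (h8 v hnl).2 ((hv _).2 (hlr.trans (Dvd.intro _ rfl)))
  refine Pool.Agent.Q84.NX.hitR_of_bad h3 h7 (by omega) hN (fun w hw => ?_) hr.le ((hv r).2 hlr) hbad hM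
  have hw1 : ((n : ℕ) : 𝓞 K) ∉ w.asIdeal := by
    intro h
    apply hw
    rw [Nat.cast_mul]
    exact Ideal.mul_mem_right _ _ h
  by_contra hw2
  apply hw
  rw [Nat.cast_mul]
  exact Ideal.mul_mem_left _ _ ((h8 w hw1).1 hw2)

theorem hit_of_bad {M : ℝ} {l : ℕ} (hl : l.Prime) (h : IsBad M l) : Pool.Agent.Q84.NX.Hit M l := by
  obtain ⟨n, N, hn, hN, hln, hM, K, i1, i2, m, e, d, z, h3, h4, h5, h6, h7, h8⟩ := h
  rw [Nat.Prime.coprime_iff_not_dvd hl] at hln
  obtain ⟨v, hv⟩ := Pool.Agent.Q290.AB.exists_place K hl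
  have hnl : ((n : ℕ) : 𝓞 K) ∉ v.asIdeal := by
    rw [hv]
    exact hln
  have hbad : ¬ GoodAt v z := (h8 v hnl).2 ((hv _).2 (Dvd.intro _ rfl))
  refine Pool.Agent.Q84.NX.hit_of_bad h3 h7 (by omega) hN (fun w hw => ?_) hl ((hv l).2 dvd_rfl) hbad hM
  have hw1 : ((n : ℕ) : 𝓞 K) ∉ w.asIdeal := by
    intro h
    apply hw
    rw [Nat.cast_mul]
    exact Ideal.mul_mem_right _ _ h
  by_contra hw2
  apply hw
  rw [Nat.cast_mul]
  exact Ideal.mul_mem_left _ _ ((h8 w hw1).1 hw2)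

theorem count_le {A B : ℕ → Prop} (h : ∀ l, l.Prime → A l → B l) (L : ℝ) :
    {l : ℕ | l.Prime ∧ (l : ℝ) ≤ L ∧ A l}.ncard ≤ {l : ℕ | l.Prime ∧ (l : ℝ) ≤ L ∧ B l}.ncard := by
  refine Set.ncard_le_ncard (fun l hl => ⟨hl.1, hl.2.1, h l hl.1 hl.2.2⟩) ?_
  refine (Set.finite_Icc 0 ⌊L⌋₊).subset fun l hl => ⟨Nat.zero_le _, Nat.le_floor hl.2.1⟩

/-- **Theorem.** -/
theorem result :
    (∃ C : ℝ, 0 < C ∧ ∀ M L : ℝ, 1 ≤ M → 1 ≤ L →
      (({l : ℕ | l.Prime ∧ (l : ℝ) ≤ L ∧ IsBad M l}.ncard : ℕ) : ℝ) ≤ C * (M * L) ^ ((2 : ℝ) / 3)) ∧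
    (∀ ε : ℝ, 0 < ε → ε ≤ 1 → ∃ C : ℝ, 0 < C ∧ ∀ L : ℝ, 1 ≤ L →
      (({l : ℕ | l.Prime ∧ (l : ℝ) ≤ L ∧ IsBad ((l : ℝ) ^ (1 - ε)) l}.ncard : ℕ) : ℝ) ≤ C * L ^ (1 - ε / 10)) ∧
    ∃ C : ℝ, 0 < C ∧ ∀ M z R : ℝ, 1 ≤ M → 1 ≤ z → 1 ≤ R →
      (({r : ℕ | 1 < r ∧ (r : ℝ) ≤ R ∧ (∀ q : ℕ, q.Prime → q ∣ r → z < q) ∧ IsBad M r}.ncard : ℕ) : ℝ) ≤
        C * M ^ 2 * R * z ^ (-(1 / 3) : ℝ) := by
  refine ⟨?_, ?_, ?_⟩
  · obtain ⟨C, hC, h⟩ := Pool.Agent.Q84.NX.hit_count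
    refine ⟨C, hC, fun M L hM hL => le_trans ?_ (h M L hM hL)⟩
    exact_mod_cast count_le (fun l hl h' => hit_of_bad hl h') L
  · intro ε hε hε1
    obtain ⟨C, hC, h⟩ := Pool.Agent.Q84.NX.hit_count_all ε hε hε1
    refine ⟨C, hC, fun L hL => le_trans ?_ (h L hL)⟩
    exact_mod_cast count_le (fun l hl h' => hit_of_bad hl h') L
  · obtain ⟨C, hC, h⟩ := Pool.Agent.Q84.NX.hitR_count
    refine ⟨C, hC, fun M z R hM hz hR => le_trans ?_ (h M z R hM hz hR)⟩
    have h1 := Set.ncard_le_ncard (s := {r : ℕ | 1 < r ∧ (r : ℝ) ≤ R ∧ (∀ q : ℕ, q.Prime → q ∣ r → z < q) ∧ IsBad M r})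
      (t := {r : ℕ | 1 ≤ r ∧ (r : ℝ) ≤ R ∧ (∀ q : ℕ, q.Prime → q ∣ r → z < q) ∧ Pool.Agent.Q84.NX.HitR M r})
      (fun r hr => ⟨hr.1.le, hr.2.1, hr.2.2.1, hitR_of_bad hr.1 hr.2.2.2⟩)
      ((Set.finite_Icc 1 ⌊R⌋₊).subset fun r hr => ⟨hr.1, Nat.le_floor hr.2.1⟩)
    exact_mod_cast h1

end Pool.Agent.Results.MP_fe3691_nt.AddingOnePrime
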