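import Pool.Agent.Q290.AB.Exact

/-!
# Szpiro's small points conjecture for superelliptic curves and almost all sets of bad places

We consider the semistable curves `y ^ n = d (x - z_1) ^ (e_1) … (x - z_m) ^ (e_m)` of any degree `n ≤ D` over ALL number fields `K` whose branch
points are projectively equivalent to rational points. For one hundred percent of the squarefree integers `N` the set `S` of the places of `K`
which divide `N` is not the set of bad places of such a curve (up to places which divide `n`), for any number field `K`. So for these `S` the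
conjecture is true for this family.

A place `v` of `K` which does not divide `n` is a place of bad reduction of a semistable curve of this kind if and only if its branch points have
bad reduction at `v`.
-/

set_option autoImplicit false

namespace Pool.Agent.Results.MP_fe3691_nt.AlmostAllBadSets

open Filter Topology NumberField IsDedekindDomain
open Pool.Agent.Q290.AB (Moeb GoodAt)

/-- the squarefree integers `1 ≤ N ≤ T` -/
def Bases (T : ℕ) : Set ℕ := {N | 1 ≤ N ∧ N ≤ T ∧ Squarefree N}

/-- There is a curve `y ^ n = d ∏ (x - z i) ^ (e i)` over some number field `K`, where `2 ≤ n ≤ D`, `0 < e i < n`, `n` divides the sum of the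
`e i`, `m ≥ 3`, `d ≠ 0`, such that a fractional linear transformation over `K` maps the branch points `z i` to different rational numbers, and
for every place `v` of `K` which does not divide `n` the branch points have bad reduction at `v` if and only if `v` divides `N`. -/
def Occurs (D N : ℕ) : Prop :=
  ∃ (K : Type) (_ : Field K) (_ : NumberField K) (n m : ℕ) (e : Fin m → ℕ) (d : K) (z : Fin m → K),
    2 ≤ n ∧ n ≤ D ∧ 3 ≤ m ∧ (∀ i, 0 < e i ∧ e i < n) ∧ n ∣ ∑ i, e i ∧ d ≠ 0 ∧
    (∃ b : Fin m → ℚ, Function.Injective b ∧ Moeb z b) ∧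
    ∀ v : HeightOneSpectrum (𝓞 K), ((n : ℕ) : 𝓞 K) ∉ v.asIdeal → (¬ GoodAt v z ↔ ((N : ℕ) : 𝓞 K) ∈ v.asIdeal)

lemma bases_eq (T : ℕ) : Bases T = (Pool.Agent.Q231.SH.sqf T : Set ℕ) := by
  ext N
  simp [Bases, Pool.Agent.Q231.SH.sqf, and_assoc]

lemma bases_finite (T : ℕ) : (Bases T).Finite := by
  rw [bases_eq]; exact Finset.finite_toSet _

lemma bases_le (T : ℕ) : (T : ℝ) ≤ 4 * (Bases T).ncard := by
  rw [bases_eq, Set.ncard_coe_finset]; exact Pool.Agent.Q231.SH.le_sqf T

/-- **Theorem.** For every `D`, one hundred percent of the squarefree integers `N` do not occur: for no number field `K` is there a semistable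
curve of the family of degree `n ≤ D` whose bad places which do not divide `n` are the places which divide `N` and not `n`. -/
theorem result (D : ℕ) :
    Tendsto (fun T : ℕ => (({N | N ∈ Bases T ∧ Occurs D N}.ncard : ℕ) : ℝ) / ((Bases T).ncard : ℝ)) atTop (𝓝 0) := by
  rw [Metric.tendsto_atTop]
  intro ε hε
  obtain ⟨C, hC⟩ := Pool.Agent.Q290.AB.exact_few D (ε := ε / 16) (by positivity)
  obtain ⟨T1, hT1⟩ := exists_nat_gt (16 * (C : ℝ) / ε)
  refine ⟨T1 + 1, fun T hT => ?_⟩
  have hTpos : (0 : ℝ) < T := by exact_mod_cast (by omega : 0 < T)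
  have hb := bases_le T
  have hbpos : (0 : ℝ) < (Bases T).ncard := by linarith
  have hfin : {N | N ∈ Bases T ∧ Occurs D N}.Finite := (bases_finite T).subset fun N hN => hN.1
  have h1 := hC T hfin.toFinset (by
    intro N hN
    rw [Set.Finite.mem_toFinset] at hN
    obtain ⟨⟨h1, h2, h3⟩, K, i1, i2, n, m, e, d, z, f1, f2, f3, f4, f5, f6, f7, f8⟩ := hN
    exact ⟨Finset.mem_Icc.2 ⟨h1, h2⟩, h3, K, i1, i2, n, m, z, by omega, f2, f3, f7, fun v hv =>
      ⟨fun h h' => ((f8 v hv).2 h') h, fun h => by
        by_contra h'
        exact h ((f8 v hv).1 h')⟩⟩)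
  rw [← Set.ncard_eq_toFinset_card _ hfin] at h1
  have h5 : 16 * (C : ℝ) < ε * T := by
    rw [div_lt_iff₀ hε] at hT1
    have h6 : (T1 : ℝ) < T := by exact_mod_cast (by omega : T1 < T)
    nlinarith
  rw [Real.dist_eq, sub_zero, abs_of_nonneg (by positivity), div_lt_iff₀ hbpos]
  nlinarith

end Pool.Agent.Results.MP_fe3691_nt.AlmostAllBadSets
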