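import Pool.Agent.Q138.PS.YJ

/-!
# Szpiro's small points conjecture for superelliptic curves: sets of bad places which contain a prime near `c n ^ j α ^ n`

We consider the curves `y ^ n = d (x - z_1) ^ (e_1) … (x - z_m) ^ (e_m)` of any degree `n ≤ D` over ALL number fields `K` whose branch points are
projectively equivalent to rational points. Outside a small set of real `α > 1`, for all primes `p` close to the numbers `c n ^ j α ^ n` and all
multiples `N ≤ p ^ (2 - ε)` of `p`, the places dividing `N` are not the places of bad reduction of such a curve (up to places which divide the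
degree).
-/

set_option autoImplicit false

namespace Pool.Agent.Results.MP_fe3691_nt.BadSetsNearPowers

open Filter NumberField IsDedekindDomain
open Pool.Agent.Q290.AB (Moeb GoodAt)
open Pool.Agent.Q138.PS (NearPow)

/-- There is a curve `y ^ n = d ∏ (x - z i) ^ (e i)` over some number field `K`, where `2 ≤ n ≤ D`, `0 < e i < n`, `n` divides the sum of the
`e i`, `m ≥ 3`, `d ≠ 0`, such that a fractional linear transformation over `K` maps the branch points `z i` to different rational numbers, and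
for every place `v` of `K` which does not divide `n` the branch points have bad reduction at `v` if and only if `v` divides `N`. -/
def Occurs (D N : ℕ) : Prop :=
  ∃ (K : Type) (_ : Field K) (_ : NumberField K) (n m : ℕ) (e : Fin m → ℕ) (d : K) (z : Fin m → K),
    2 ≤ n ∧ n ≤ D ∧ 3 ≤ m ∧ (∀ i, 0 < e i ∧ e i < n) ∧ n ∣ ∑ i, e i ∧ d ≠ 0 ∧
    (∃ b : Fin m → ℚ, Function.Injective b ∧ Moeb z b) ∧
    ∀ v : HeightOneSpectrum (𝓞 K), ((n : ℕ) : 𝓞 K) ∉ v.asIdeal → (¬ GoodAt v z ↔ ((N : ℕ) : 𝓞 K) ∈ v.asIdeal)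

/-- **Theorem.** -/
theorem result (ε l : ℝ) (hε : 0 < ε) (hε1 : ε ≤ 1) (hl : l < 1) :
    ∃ Z : Set ℝ, dimH Z ≤ ENNReal.ofReal (min (1 - ε / 5) ((4 - 2 * ε) / 3) / (1 - l)) ∧ ∀ α : ℝ, 1 < α → α ∉ Z →
      ∀ (D : ℕ) (c : ℝ), 0 < c → IsAlgebraic ℚ c → ∀ (j : ℤ) (A : ℝ), ∀ᶠ n : ℕ in atTop,
        ∀ p N : ℕ, p.Prime → NearPow α c j A l n p → p ∣ N → 1 ≤ N → (N : ℝ) ≤ (p : ℝ) ^ (2 - ε) → ¬ Occurs D N := by
  obtain ⟨Z, hZ, hg⟩ := Pool.Agent.Q138.PS.Sz.windows ε l hε hε1 hl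
  refine ⟨Z, hZ, fun α hα hαZ D c hc hca j A => ?_⟩
  filter_upwards [hg α hα hαZ D c hc hca j A] with n₀ hn₀ p N hp hnear hpN hN hNp
  obtain ⟨hDp, hfine⟩ := hn₀ p hp hnear
  rintro ⟨K, i1, i2, n, r, e, d, z, h1, h2, h3, h4, h5, h6, h7, h8⟩
  obtain ⟨v, hv⟩ := Pool.Agent.Q290.AB.exists_place K hp
  have hnl : ((n : ℕ) : 𝓞 K) ∉ v.asIdeal := by
    rw [hv]
    intro hdvd
    have h9 : p ≤ n := Nat.le_of_dvd (by omega) hdvd
    omega
  refine ((h8 v hnl).2 ((hv N).2 hpN)) (Pool.Agent.Q138.PS.Sz.good_of hp hfine hN hNp h3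
    (by omega) h2 h7 (fun w hw => ?_) v ((hv p).2 dvd_rfl))
  have hw1 : ((n : ℕ) : 𝓞 K) ∉ w.asIdeal := by
    intro h
    apply hw
    rw [Nat.cast_mul]
    exact Ideal.mul_mem_right _ _ h
  by_contra hw2
  apply hw
  rw [Nat.cast_mul]
  exact Ideal.mul_mem_left _ _ ((h8 w hw1).1 hw2)

end Pool.Agent.Results.MP_fe3691_nt.BadSetsNearPowers
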