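import Pool.Agent.Q84.NX.CrossStr

/-!
# Szpiro's small points conjecture for superelliptic curves: sets of bad places which contain a prime of a string

We consider the curves `y ^ n = d (x - z_1) ^ (e_1) … (x - z_m) ^ (e_m)` of any degree `n` over ALL number fields `K` whose branch points are
projectively equivalent to rational points. Let `0 < ε ≤ 1`. For all `κ > 0` and `m` there is `c' > 0` and for every `Z` a number `W` with the
following property. For every large `X` there is a set `S` of at most `(log X) ^ (49 / 50)` primes, all larger than `Z`, such that for EVERY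
function `f` with values `1` and `-1` on the primes at least `X ^ (1 - κ)` integers `n`, `X < n ≤ 3X`, satisfy: the interval `[n, n + W]` contains
at least `m` primes, and for every prime `p` in it

* the Legendre symbol `(p / q)` is `f q` for all odd primes `q ≤ c' log X` outside `S`;
* for ALL primes `l` with `|l - k p| ≤ p ^ (ε / 80)` for some integer `k`, `1 ≤ k ≤ p ^ (ε / 80)` (for instance `l = p`), and ALL multiples
  `N` of `l` and degrees `n` prime to `l` with `rad (n N) ≤ l ^ (2 - ε)`, the places dividing `N` are not the places of bad reduction of a semistable curve of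
  this kind (up to places which divide `n`), over any number field.

Method: a place of bad reduction divides an abc-triple which comes from a cross ratio of the branch points (`Q84/NX/Cross`), and the radical of
such a triple divides `2 n N`; the primes near small multiples of the primes of the strings have only triples with a radical larger than
`l ^ (2 - ε')` (`MP_4ab349_nt.StringsOfPrimes`).
-/

set_option autoImplicit false

open scoped Classical

namespace Pool.Agent.Results.MP_fe3691_nt.StringsOfPrimes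

open Finset Filter NumberField IsDedekindDomain
open Pool.Agent.Q290.AB (Moeb GoodAt)

/-- the product of the prime factors -/
def rad (n : ℕ) : ℕ := ∏ q ∈ n.primeFactors, q

/-- There is a curve `y ^ n = d ∏ (x - z i) ^ (e i)` over some number field `K`, where `0 < e i < n`, `n` divides the sum of the
`e i`, `m ≥ 3`, `d ≠ 0`, such that a fractional linear transformation over `K` maps the branch points `z i` to different rational numbers, and
for every place `v` of `K` which does not divide `n` the branch points have bad reduction at `v` if and only if `v` divides `N`. -/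
def Occurs (n N : ℕ) : Prop :=
  ∃ (K : Type) (_ : Field K) (_ : NumberField K) (m : ℕ) (e : Fin m → ℕ) (d : K) (z : Fin m → K),
    3 ≤ m ∧ (∀ i, 0 < e i ∧ e i < n) ∧ n ∣ ∑ i, e i ∧ d ≠ 0 ∧
    (∃ b : Fin m → ℚ, Function.Injective b ∧ Moeb z b) ∧
    ∀ v : HeightOneSpectrum (𝓞 K), ((n : ℕ) : 𝓞 K) ∉ v.asIdeal → (¬ GoodAt v z ↔ ((N : ℕ) : 𝓞 K) ∈ v.asIdeal)

/-- no multiple `N` of a prime `l` within `p ^ (ε / 80)` of a multiple `k p`, `1 ≤ k ≤ p ^ (ε / 80)`, occurs with a degree `n ≥ 2` prime to `l`,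
if `rad (n N) ≤ l ^ (2 - ε)` -/
def Fine (ε : ℝ) (p : ℕ) : Prop :=
  ∀ k l n N : ℕ, 1 ≤ k → (k : ℝ) ≤ (p : ℝ) ^ (ε / 80) → |(l : ℝ) - k * p| ≤ (p : ℝ) ^ (ε / 80) → l.Prime →
    l ∣ N → 1 ≤ N → 2 ≤ n → ¬ l ∣ n → ((rad (n * N) : ℕ) : ℝ) ≤ (l : ℝ) ^ (2 - ε) → ¬ Occurs n N

/-- **Theorem.** -/
theorem result (ε : ℝ) (hε : 0 < ε) (hε1 : ε ≤ 1) :
    ∀ κ : ℝ, 0 < κ → ∀ m : ℕ, ∃ c' : ℝ, 0 < c' ∧
    ∀ Z : ℕ, ∃ W : ℕ, ∃ X₀ : ℝ, ∀ X : ℝ, X₀ ≤ X →
    ∃ S : Finset ℕ, (∀ q ∈ S, q.Prime ∧ Z < q) ∧ (S.card : ℝ) ≤ (Real.log X) ^ (49 / 50 : ℝ) ∧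
    ∀ f : ℕ → ℤ, (∀ q, f q = 1 ∨ f q = -1) →
      X ^ (1 - κ) ≤ (((Icc 1 ⌊3 * X⌋₊).filter fun n : ℕ => X < n ∧
        m ≤ ((Icc n (n + W)).filter Nat.Prime).card ∧
        ∀ p ∈ Icc n (n + W), p.Prime → Fine ε p ∧
          ∀ q : ℕ, q.Prime → q ≠ 2 → (q : ℝ) ≤ c' * Real.log X → q ∉ S → jacobiSym p q = f q).card : ℝ) := by
  intro κ hκ m
  obtain ⟨c', hc', h⟩ := Pool.Agent.Results.MP_4ab349_nt.StringsOfPrimes.result (ε / 2) (by positivity) (by linarith) κ hκ m
  obtain ⟨X₁, hX₁, hlarge⟩ := Pool.Agent.Q84.NX.large 1 ε hε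
  refine ⟨c', hc', fun Z => ?_⟩
  obtain ⟨W, X₀, hX₀⟩ := h Z
  refine ⟨W, max X₀ X₁, fun X hX => ?_⟩
  obtain ⟨S, hS1, hS2, hS3⟩ := hX₀ X ((le_max_left _ _).trans hX)
  refine ⟨S, hS1, hS2, fun f hf => (hS3 f hf).trans ?_⟩
  rw [Nat.cast_le]
  apply card_le_card
  intro n hn
  rw [mem_filter] at hn ⊢
  obtain ⟨hn1, hn2, hn3, hn4⟩ := hn
  refine ⟨hn1, hn2, hn3, fun p hp hpp => ⟨?_, (hn4 p hp hpp).2⟩⟩
  have hfine := (hn4 p hp hpp).1
  have hpX : X₁ ≤ p := by
    have h1 : (n : ℝ) ≤ p := by exact_mod_cast (mem_Icc.1 hp).1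
    have h2 := (le_max_right X₀ X₁).trans hX
    linarith
  rintro k l n N hk hkp hkl hl hlN hN hn hln hNl ⟨K, i1, i2, r, e, d, z, h3, h4, h5, h6, h7, h8⟩
  obtain ⟨v, hv⟩ := Pool.Agent.Q290.AB.exists_place K hl
  have hnl : ((n : ℕ) : 𝓞 K) ∉ v.asIdeal := by
    rw [hv]
    exact hln
  refine ((h8 v hnl).2 ((hv N).2 hlN)) (Pool.Agent.Q84.NX.good_of_fine hε1 hX₁ hlarge hpX hfine hk hkp hkl hl hN
    (by omega) hNl h3 h7 (fun w hw => ?_) v ((hv l).2 dvd_rfl))
  have hw1 : ((n : ℕ) : 𝓞 K) ∉ w.asIdeal := by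
    intro h
    apply hw
    rw [Nat.cast_mul]
    exact Ideal.mul_mem_right _ _ h
  by_contra hw2
  apply hw
  rw [Nat.cast_mul]
  exact Ideal.mul_mem_left _ _ ((h8 w hw1).1 hw2)

end Pool.Agent.Results.MP_fe3691_nt.StringsOfPrimes
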